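import Pool.Agent.Lib_helper40.BCP.Fin

/-!
# Big Cohen-Macaulay algebras do not pass to approximations modulo p

Negative answer to Q1, for every non-principal ultrafilter on the primes and every isomorphism of
the ultraproduct of the fields `F_p^alg` with `ℂ`, even for big Cohen-Macaulay algebras over the
absolute integral closure `R⁺`.

The base ring is `R = ℂ[x, y]_(x, y)`, with approximations `R_p = F_p^alg[x, y]_(x, y)`.  The
finitely generated algebra is `S = R[v, a, b, c] / (v^4 - x^8 - λ x^4 y^4 - y^8,
x^2 y^2 - a x^3 - b y^3 - c v)` for a suitable transcendental number `λ`: its approximations `λ_p`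
are roots of the determinant of a Toeplitz matrix of coefficients of powers of `X^2 + s X + 1`.
The algebra `B` contains an ultraproduct of absolute integral closures of power series rings
`F_p^alg[[x, y]]`, `p` congruent to `3` modulo `4`.
-/

universe u

open Pool.Agent.Lib_helper40

namespace Pool.Agent.Results.MP_ab10b5_ag.NoModPDescentPlus

/-- **Negative answer to Q1.**  `PresMapsToBigCMOverPlus ℂ h` says that `S = R[Y]/(h)` maps to a
big Cohen-Macaulay algebra `B` over `R = ℂ[x, y]_(x, y)` such that there is also an `R`-algebra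
homomorphism `R⁺ → B`; the second clause says that the set of those primes `p` for which the
approximation `S_p` maps to some big Cohen-Macaulay `R_p`-algebra does not belong to the
ultrafilter. -/
theorem result (𝒰 : Ultrafilter Nat.Primes) (h𝒰 : ∀ p : Nat.Primes, {p} ∉ 𝒰)
    (φ : UProd 𝒰 Fbar ≃+* ℂ) :
    ∃ (n r : ℕ) (h : Fin r → MvPolynomial (Fin n) (MvPolynomial (Fin 2) ℂ)),
      BCP.PresMapsToBigCMOverPlus.{0} ℂ h ∧
      ∀ α : ℂ → ∀ p : Nat.Primes, Fbar p, IsApproximation φ α →
        {p : Nat.Primes | PresMapsToBigCM.{u} (Fbar p) (fun j => approxPolyY α p (h j))} ∉ 𝒰 :=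
  BCP.main_theorem_plus 𝒰 h𝒰 φ

end Pool.Agent.Results.MP_ab10b5_ag.NoModPDescentPlus
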